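import Mathlib

/-!
# Arthur's conjecture for unramified automorphic functions: data and known facts
-/

namespace Pool.Agent.N522.AF

/-- Split connected reductive groups over `𝔽_q`, for a fixed curve `X`. -/
structure Theory where
  /-- the groups -/
  Grp : Type
  /-- Q1 for `G` and `X`: the decomposition of `L²(Bun_G(𝔽_q))` exists -/
  Holds : Grp → Prop
  /-- products -/
  prod : Grp → Grp → Grp
  /-- `GL_n`, `n ≥ 1` -/
  gl : ℕ → Grp
  /-- split tori -/
  Torus : Grp → Prop
  /-- `Quot G' G`: `G` is the quotient of `G'` by a central torus -/
  Quot : Grp → Grp → Prop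
  /-- the derived group is simply connected -/
  Sc : Grp → Prop

variable {T : Theory}

/-- The groups obtained from general linear groups and tori by products and quotients by central
tori. -/
inductive Linear : T.Grp → Prop
  | gl (n : ℕ) : 0 < n → Linear (T.gl n)
  | torus (G : T.Grp) : T.Torus G → Linear G
  | prod (G H : T.Grp) : Linear G → Linear H → Linear (T.prod G H)
  | quot (G' G : T.Grp) : T.Quot G' G → Linear G' → Linear G

/-- Known facts. -/
structure Facts (T : Theory) : Prop where
  /-- `L²` of the product is the tensor product, the nilpotent orbits of the product are the pairs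
  and the sets `R` are products -/
  prod : ∀ G H, T.Holds G → T.Holds H → T.Holds (T.prod G H)
  /-- Moeglin-Waldspurger (residual spectrum) and Lafforgue (Ramanujan conjecture) -/
  gl : ∀ n, 0 < n → T.Holds (T.gl n)
  /-- unitary characters of a finitely generated abelian group -/
  torus : ∀ G, T.Torus G → T.Holds G
  /-- `Bun_G = Bun_{G'}/Bun_Z` on points; the functions on `Bun_G` are the fibre at the trivial
  character of the direct integral of `L²(Bun_{G'})` over the unitary characters of `Bun_Z`, and the
  twists by unramified unitary characters of `G'` identify the fibres near it -/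
  quot : ∀ G' G, T.Quot G' G → T.Holds G' → T.Holds G
  /-- z-extensions (Langlands, Kottwitz) -/
  zext : ∀ G, ∃ G', T.Sc G' ∧ T.Quot G' G

theorem holds_of_linear (F : Facts T) (G : T.Grp) (h : Linear G) : T.Holds G := by
  induction h with
  | gl n hn => exact F.gl n hn
  | torus G hG => exact F.torus G hG
  | prod G H _ _ h1 h2 => exact F.prod G H h1 h2
  | quot G' G hq _ h1 => exact F.quot G' G hq h1

theorem q1_iff (F : Facts T) : (∀ G : T.Grp, T.Holds G) ↔ ∀ G : T.Grp, T.Sc G → T.Holds G := by
  refine ⟨fun h G _ => h G, fun h G => ?_⟩
  obtain ⟨G', h1, h2⟩ := F.zext G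
  exact F.quot G' G h2 (h G' h1)

end Pool.Agent.N522.AF
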